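import Mathlib
import Pool.Agent.Helper53_TDG.Comp
import Pool.Agent.Helper29_TDG.Stmts

/-!
# Module BD: a bad position satisfies the main theorem
-/

set_option linter.unusedSectionVars false

namespace Pool.Agent.TDG.H11

open Finset Helper77.TDG Pool.Agent.TDG

theorem bd (hBF : BFStmt) : BDStmt := by
  intro V X _ _ _ N Hv U hW hU
  have hUH : U \ Hv = U := sdiff_eq_self_of_disjoint hU.2.1.1
  have hcomp : comps N (U \ ∅) = {U} := by
    rw [sdiff_empty]
    exact Conn.comps hU.1
  have hbc : bc N Hv U ∅ = {U} := by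
    ext K
    rw [mem_bc, mem_singleton, sdiff_empty]
    constructor
    · intro h
      exact hU.1.2 K h.2.1.1 h.1
    · rintro rfl
      exact ⟨closed_self _, hU⟩
  have hsf : sf N Hv U ∅ = 2 := by
    unfold sf ph
    rw [hbc, J_empty]
    simp
  have hF : 2 ≤ F2 N Hv U := by
    have := sf_le_F2 (N := N) (Hv := Hv) (U := U) (R := ∅) (empty_subset _)
    rw [hsf] at this
    exact this
  have hG : gv N Hv U ≤ Gam N Hv U := by
    obtain ⟨R, hR, h⟩ := exists_Gam (N := N) (Hv := Hv) (U := U)
    rw [← h]
    rcases R.eq_empty_or_nonempty with h0 | h0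
    · subst h0
      unfold GG
      rw [hcomp]
      simp
    · have hRU : R ⊆ U := by
        rw [hUH] at hR
        exact hR
      have := (hBF V X N Hv U R hW hU hRU h0).1
      linarith
  have h3 := gv_bad hU
  have h4 := hU.2.2.2
  have h5 : (3 : ℤ) * (ns N U : ℤ) = 2 * ((Phi N Hv U : ℤ) + 1) := by
    exact_mod_cast h4
  unfold MM
  linarith

end Pool.Agent.TDG.H11
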