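import Mathlib
import Pool.Agent.Helper53_TDG.Comp
import Pool.Agent.Helper29_TDG.Stmts

/-!
# Module UH: clusters closed by the subsets of a maximal optimal set
-/

set_option linter.unusedSectionVars false

namespace Pool.Agent.TDG.H11

open Finset Helper77.TDG Pool.Agent.TDG

section

variable {V X : Type*} [Fintype V] [DecidableEq V] [DecidableEq X]
variable {N : V → Finset X} {Hv U : Finset X}

lemma tok_subset_of_closed {T C : Finset X} (h : Closed N (U \ T) C) : tok N U C ⊆ T := by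
  intro x hx
  unfold tok at hx
  rw [mem_sdiff, mem_biUnion] at hx
  obtain ⟨⟨v, hv, hxv⟩, hxC⟩ := hx
  rw [mem_alive] at hv
  rw [mem_inter] at hxv
  by_contra hxT
  exact hxC (h.2 v hv (mem_inter.2 ⟨hxv.1, mem_sdiff.2 ⟨hxv.2, hxT⟩⟩))

lemma closed_of_tok {T C : Finset X} (hC : C ⊆ U \ T) (h : tok N U C ⊆ T) :
    Closed N (U \ T) C := by
  refine ⟨hC, fun v hv x hx => ?_⟩
  rw [mem_inter, mem_sdiff] at hx
  by_contra hxC
  refine hx.2.2 (h ?_)
  unfold tok
  rw [mem_sdiff, mem_biUnion]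
  exact ⟨⟨v, mem_alive.2 hv, mem_inter.2 ⟨hx.1, hx.2.1⟩⟩, hxC⟩

/-- The value `G` after un-hitting a closed part `C` of `U \ T`, `T ⊆ A`. -/
lemma GG_unhit {A T C : Finset X} (hTA : T ⊆ A) (hc : Closed N (U \ T) C)
    (hconn : Conn N C) :
    GG N Hv U A = GG N Hv U (A \ C) + (GG N Hv C (A ∩ C) - gv N Hv C) := by
  have hCU : C ⊆ U := hc.1.trans sdiff_subset
  have hCT : Disjoint C T := by
    rw [disjoint_left]
    intro x h1 h2
    exact (mem_sdiff.1 (hc.1 h1)).2 h2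
  -- `C` is closed in `U \ (A \ C)`
  have h1 : Closed N (U \ (A \ C)) C := by
    refine ⟨fun x hx => ?_, fun v hv x hx => ?_⟩
    · rw [mem_sdiff, mem_sdiff]
      exact ⟨hCU hx, fun h => h.2 hx⟩
    · rw [mem_inter, mem_sdiff, mem_sdiff] at hx
      by_contra hxC
      refine hxC (hc.2 v hv (mem_inter.2 ⟨hx.1, mem_sdiff.2 ⟨hx.2.1, fun hT => ?_⟩⟩))
      exact hx.2.2 ⟨hTA hT, hxC⟩
  -- `C \ A` is closed in `U \ A`
  have h2 : Closed N (U \ A) (C \ (A ∩ C)) := by
    refine ⟨fun x hx => ?_, fun v hv x hx => ?_⟩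
    · rw [mem_sdiff, mem_inter] at hx
      rw [mem_sdiff]
      exact ⟨hCU hx.1, fun h => hx.2 ⟨h, hx.1⟩⟩
    · rw [mem_inter, mem_sdiff] at hx
      rw [mem_sdiff, mem_inter]
      refine ⟨hc.2 v (hv.mono (inter_subset_inter_left sdiff_subset))
        (mem_inter.2 ⟨hx.1, mem_sdiff.2 ⟨hx.2.1, fun hT => hx.2.2 (hTA hT)⟩⟩), fun h => hx.2.2 h.1⟩
  have h3 : (U \ (A \ C)) \ C = (U \ A) \ (C \ (A ∩ C)) := by
    ext x
    simp only [mem_sdiff, mem_inter]
    tauto
  have h4 : (A.card : ℤ) = (A \ C).card + (A ∩ C).card := by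
    have := card_sdiff_add_card_inter A C
    exact_mod_cast this.symm
  unfold GG
  rw [sum_comps_split h1, sum_comps_split h2, h3, Conn.comps hconn, sum_singleton, h4]
  ring

end

theorem uh (hBF : BFStmt) : UHStmt := by
  intro V X _ _ _ N Hv U A T C hW hA hT
  rw [mem_bc, mem_bc]
  constructor
  · rintro ⟨h1, h2⟩
    have h3 := tok_subset_of_closed h1
    refine ⟨⟨?_, h2⟩, h3⟩
    have hCU : C ⊆ U := h1.1.trans sdiff_subset
    -- `C` is not hit by `A`
    have hd : ¬ (A ∩ C).Nonempty := by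
      intro hne
      have h4 := (hBF V X N Hv C (A ∩ C) hW h2 inter_subset_right hne).1
      have h5 := GG_unhit (Hv := Hv) hT h1 h2.1
      have h6 : Gam N Hv U ≤ GG N Hv U (A \ C) :=
        Gam_le_GG (sdiff_subset.trans hA.1)
      have h7 := hA.2.1
      linarith
    have hCA : C ⊆ U \ A := by
      intro x hx
      rw [mem_sdiff]
      exact ⟨hCU hx, fun h => hd ⟨x, mem_inter.2 ⟨h, hx⟩⟩⟩
    exact closed_of_tok hCA (h3.trans hT)
  · rintro ⟨⟨h1, h2⟩, h3⟩
    refine ⟨closed_of_tok (h1.1.trans (sdiff_subset_sdiff (Subset.refl _) hT)) h3, h2⟩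

end Pool.Agent.TDG.H11
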